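import Pool.Agent.Work.MP_58a5a1_lc.Pol
import Pool.Agent.Work.MP_58a5a1_lc.Int3

namespace Pool.Agent.Results.MP_58a5a1_lc.AlephOmega
open Pool.Agent.Lib.ZFModel Pool.Agent.Work.MP_58a5a1_lc

theorem result (κ : ℕ → Cardinal.{0}) (hκ : StrictMono κ) (hs : ∀ n, Supercompact (κ n)) :
    ∃ (M : Type 1) (E : M → M → Prop), IsZFC E ∧
      ∃ l, IsAlephOmega E l ∧ IsStrongLimit E l ∧ IsSingular E l ∧
        (∀ δ, E δ l → ¬ IsMeasurable E δ) ∧
        ∀ μ W, IsCard E μ → E l μ → IsPow E W l → Injects E μ W → Polarized E μ l := by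
  obtain ⟨O, _, _, ⟨X⟩⟩ := exists_ctx κ hκ hs
  obtain ⟨M, E, h, J, _, _, ⟨D⟩⟩ := X.sys.exists_md
  exact ⟨M, E, h, D.ord D.lam, isAlephOmega_lam h.zf D, isStrongLimit_lam h.zf D,
    isSingular_lam h.zf D, fun _ => not_measurable h.zf D, fun _ _ => polarized h.zf D⟩

end Pool.Agent.Results.MP_58a5a1_lc.AlephOmega
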