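import Pool.Agent.Work.MP_58a5a1_lc.Pol
import Pool.Agent.Work.MP_58a5a1_lc.Int3
import Pool.Agent.Lib.Sharp.SCH

/-! The full strong polarized spectrum at `ℵ_ω` holds in a model of ZFC if there are `ω` many
supercompact cardinals; at any strong limit singular cardinal it implies that `0♯` exists. -/

namespace Pool.Agent.Results.MP_58a5a1_lc.BothBounds
open Pool.Agent.Lib.ZFModel Pool.Agent.Work.MP_58a5a1_lc

theorem result :
    (∀ κ : ℕ → Cardinal.{0}, StrictMono κ → (∀ n, Supercompact (κ n)) →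
      ∃ (M : Type 1) (E : M → M → Prop), IsZFC E ∧
        ∃ l, IsAlephOmega E l ∧ IsStrongLimit E l ∧ IsSingular E l ∧
          (∀ δ, E δ l → ¬ IsMeasurable E δ) ∧
          ∀ μ W, IsCard E μ → E l μ → IsPow E W l → Injects E μ W → Polarized E μ l) ∧
    ∀ l : Cardinal.{0}, (∀ θ < l, 2 ^ θ < l) → l.ord.cof < l →
      (∀ μ : Cardinal.{0}, l < μ → μ ≤ 2 ^ l → ∀ c : μ.out × l.out → Bool,
        ∃ (A : Set μ.out) (B : Set l.out) (i : Bool), Cardinal.mk A = μ ∧ Cardinal.mk B = l ∧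
          ∀ a ∈ A, ∀ b ∈ B, c (a, b) = i) → Pool.Agent.Lib.Sharp.ZeroSharp := by
  refine ⟨fun κ hκ hs => ?_, fun l h1 h2 h =>
    Pool.Agent.Lib.Sharp.zeroSharp_of_polarized ⟨(zero_le.trans_lt h2).ne', h1⟩ h2 h⟩
  obtain ⟨O, _, _, ⟨X⟩⟩ := exists_ctx κ hκ hs
  obtain ⟨M, E, h, J, _, _, ⟨D⟩⟩ := X.sys.exists_md
  exact ⟨M, E, h, D.ord D.lam, isAlephOmega_lam h.zf D, isStrongLimit_lam h.zf D,
    isSingular_lam h.zf D, fun _ => not_measurable h.zf D, fun _ _ => polarized h.zf D⟩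

end Pool.Agent.Results.MP_58a5a1_lc.BothBounds
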